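import Pool.Agent.H891R2.KN.Check

set_option autoImplicit false
set_option maxRecDepth 100000

/-! Certificate. -/

namespace Pool.Agent.H891R2.KN.CertE

open Pool.Agent.H891R2.KN

def cE : Cert := (.node 138 0x634826348062c8262c80624826248061c8261c80a139aa13986148261480a0b9aa0b98a0b5aa0b5860cc260cc060c8260c80a039ea039ba039aa0398a0397a0394a035ea035ba035aa0358a0357a0354a031ea031ba031aa0318a0317a0314a021ea021ba021aa0218a0217a0214a0212a020fa020da020ca0208a0205a0200a01f2a01eda01eaa01e6a01e5a01e3a01e0a01dea01dba01daa01d8a01d7a01d4a019ea019ba019aa0198a0197a0194a0192a018fa018da018c604826048060442604406040260400603c2603c06024260240600c16008160041454c2454c08025e8025b8025a8025880257802548015e8015b8015a801588015780154801528014f8014d8014c8014880145801408011b8011a8011880117801128010f8010d8010c8010880105800de800db800da800d8800d7800d4800d2800cf800cd800cc800c8800c5800c0402c240140400c1400c0400814008040041 4 0 (.leaf 0 0x0 4) (.node 12 0x82c7282c6a82ac882ac08344883440832f2832ea618c2610c242302422c2 4 1 (.leaf 13 0x4310158342583404db424db40628c0593c2593c05924259240423414210242041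 54) (.leaf 13 0x43041582c2582c04dac24dac0658c25b3c25b3c05b2425b240424014210142040 50) (.leaf 0 0x0 4)) (.leaf 31 0xc0510a1b5ea1b5ba1b57a1b54a19dea19daa19d8a19d4a139ea139ba1397a1394a135ea135ba1357a1354a11dea11daa11d8a11d498a5b98a5798a1b98a1758c8258c8042301422c14204042001 50))

theorem ok : Cert.check cE (start31 30 30) = true := by decide +kernel

end Pool.Agent.H891R2.KN.CertE
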